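import Mathlib
import Pool.Agent.IterTotient

set_option autoImplicit false

namespace Pool.Agent.Results.MP_628140_nt.LowerBound

open Pool.Agent.IterTotient

/-- completely multiplicative weight `n^5 * 357^(-F n)` -/
noncomputable def b : ℕ →* ℝ where
  toFun n := (n : ℝ) ^ 5 * (1 / 357 : ℝ) ^ (F n)
  map_one' := by simp
  map_mul' m n := by
    by_cases hm : m = 0
    · subst hm; simp
    by_cases hn : n = 0
    · subst hn; simp
    rw [F_mul hm hn, pow_add]
    push_cast; ring

lemma b_apply (n : ℕ) : b n = (n : ℝ) ^ 5 * (1 / 357 : ℝ) ^ (F n) := rfl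

lemma b_nonneg (n : ℕ) : 0 ≤ b n := by rw [b_apply]; positivity

lemma b_le_pow (n : ℕ) : b n ≤ (243 / 357 : ℝ) ^ (F n) := by
  rw [b_apply]
  have h1 : (n : ℝ) ≤ 3 ^ F n := by exact_mod_cast le_three_pow n
  have h2 : (n : ℝ) ^ 5 ≤ (3 ^ F n) ^ 5 := pow_le_pow_left₀ (by positivity) h1 5
  have h3 : ((3 : ℝ) ^ F n) ^ 5 = 243 ^ F n := by
    rw [← pow_mul, mul_comm, pow_mul]; norm_num
  rw [h3] at h2
  calc (n : ℝ) ^ 5 * (1 / 357 : ℝ) ^ (F n) ≤ 243 ^ F n * (1 / 357 : ℝ) ^ (F n) :=
        mul_le_mul_of_nonneg_right h2 (by positivity)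
    _ = (243 / 357 : ℝ) ^ (F n) := by rw [← mul_pow]; norm_num

lemma one_le_F (n : ℕ) (hn : 2 ≤ n) : 1 ≤ F n := by
  by_contra h
  have h0 : F n = 0 := by omega
  have := le_three_pow n
  rw [h0] at this
  omega

lemma b_le (n : ℕ) (hn : 2 ≤ n) : b n ≤ 243 / 357 := by
  refine (b_le_pow n).trans ?_
  calc (243 / 357 : ℝ) ^ (F n) ≤ (243 / 357 : ℝ) ^ 1 :=
        pow_le_pow_of_le_one (by norm_num) (by norm_num) (one_le_F n hn)
    _ = 243 / 357 := by norm_num

lemma b_prime_lt_one {p : ℕ} (hp : p.Prime) : ‖b p‖ < 1 := by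
  rw [Real.norm_eq_abs, abs_of_nonneg (b_nonneg p)]
  have := b_le p hp.two_le
  linarith

/-- Euler product over primes below `N` -/
noncomputable def P (N : ℕ) : ℝ := ∏ p ∈ N.primesBelow, (1 - b p)⁻¹

lemma sum_le_P (N : ℕ) (s : Finset ℕ) (hs : ∀ n ∈ s, 0 < n ∧ n < N) : ∑ n ∈ s, b n ≤ P N := by
  obtain ⟨-, h2⟩ := EulerProduct.summable_and_hasSum_smoothNumbers_prod_primesBelow_geometric
    (f := b) (fun {p} hp => b_prime_lt_one hp) N
  let t : Finset N.smoothNumbers := s.attach.map
    ⟨fun n => ⟨n.1, Nat.mem_smoothNumbers_of_lt (hs n.1 n.2).1 (hs n.1 n.2).2⟩, by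
      intro x y hxy
      have := congrArg Subtype.val hxy
      exact Subtype.ext this⟩
  have h3 := sum_le_hasSum t (fun i _ => b_nonneg i.1) h2
  have h4 : ∑ i ∈ t, b i.1 = ∑ n ∈ s, b n := by
    rw [Finset.sum_map]
    exact Finset.sum_attach s (fun n => b n)
  rw [h4] at h3
  exact h3

lemma F3 : F 3 = 1 := by rw [F_prime_half (by norm_num) (by norm_num)]; norm_num [F_one]
lemma F4 : F 4 = 2 := by
  rw [show 4 = 2 * 2 by norm_num, F_mul (by norm_num) (by norm_num)]; norm_num [F_two]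
lemma F5 : F 5 = 2 := by rw [F_prime_half (by norm_num) (by norm_num)]; norm_num [F_two]
lemma F6 : F 6 = 2 := by
  rw [show 6 = 2 * 3 by norm_num, F_mul (by norm_num) (by norm_num)]; norm_num [F_two, F3]
lemma F7 : F 7 = 2 := by rw [F_prime_half (by norm_num) (by norm_num)]; norm_num [F3]
lemma F8 : F 8 = 3 := by
  rw [show 8 = 2 * 4 by norm_num, F_mul (by norm_num) (by norm_num)]; norm_num [F_two, F4]
lemma F9 : F 9 = 2 := by
  rw [show 9 = 3 * 3 by norm_num, F_mul (by norm_num) (by norm_num)]; norm_num [F3]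
lemma F10 : F 10 = 3 := by
  rw [show 10 = 2 * 5 by norm_num, F_mul (by norm_num) (by norm_num)]; norm_num [F_two, F5]
lemma F11 : F 11 = 3 := by rw [F_prime_half (by norm_num) (by norm_num)]; norm_num [F5]
lemma F12 : F 12 = 3 := by
  rw [show 12 = 2 * 6 by norm_num, F_mul (by norm_num) (by norm_num)]; norm_num [F_two, F6]
lemma F13 : F 13 = 3 := by rw [F_prime_half (by norm_num) (by norm_num)]; norm_num [F6]
lemma F14 : F 14 = 3 := by
  rw [show 14 = 2 * 7 by norm_num, F_mul (by norm_num) (by norm_num)]; norm_num [F_two, F7]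
lemma F15 : F 15 = 3 := by
  rw [show 15 = 3 * 5 by norm_num, F_mul (by norm_num) (by norm_num)]; norm_num [F3, F5]
lemma F16 : F 16 = 4 := by
  rw [show 16 = 2 * 8 by norm_num, F_mul (by norm_num) (by norm_num)]; norm_num [F_two, F8]
lemma F17 : F 17 = 4 := by rw [F_prime_half (by norm_num) (by norm_num)]; norm_num [F8]
lemma F18 : F 18 = 3 := by
  rw [show 18 = 2 * 9 by norm_num, F_mul (by norm_num) (by norm_num)]; norm_num [F_two, F9]
lemma F19 : F 19 = 3 := by rw [F_prime_half (by norm_num) (by norm_num)]; norm_num [F9]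
lemma F20 : F 20 = 4 := by
  rw [show 20 = 2 * 10 by norm_num, F_mul (by norm_num) (by norm_num)]; norm_num [F_two, F10]
lemma F21 : F 21 = 3 := by
  rw [show 21 = 3 * 7 by norm_num, F_mul (by norm_num) (by norm_num)]; norm_num [F3, F7]
lemma F22 : F 22 = 4 := by
  rw [show 22 = 2 * 11 by norm_num, F_mul (by norm_num) (by norm_num)]; norm_num [F_two, F11]
lemma F23 : F 23 = 4 := by rw [F_prime_half (by norm_num) (by norm_num)]; norm_num [F11]
lemma F24 : F 24 = 4 := by
  rw [show 24 = 2 * 12 by norm_num, F_mul (by norm_num) (by norm_num)]; norm_num [F_two, F12]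
lemma F25 : F 25 = 4 := by
  rw [show 25 = 5 * 5 by norm_num, F_mul (by norm_num) (by norm_num)]; norm_num [F5]
lemma F29 : F 29 = 4 := by rw [F_prime_half (by norm_num) (by norm_num)]; norm_num [F14]
lemma F31 : F 31 = 4 := by rw [F_prime_half (by norm_num) (by norm_num)]; norm_num [F15]
lemma F37 : F 37 = 4 := by rw [F_prime_half (by norm_num) (by norm_num)]; norm_num [F18]
lemma F41 : F 41 = 5 := by rw [F_prime_half (by norm_num) (by norm_num)]; norm_num [F20]
lemma F43 : F 43 = 4 := by rw [F_prime_half (by norm_num) (by norm_num)]; norm_num [F21]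
lemma F47 : F 47 = 5 := by rw [F_prime_half (by norm_num) (by norm_num)]; norm_num [F23]

lemma primesBelow_53 : Nat.primesBelow 53 =
    {2, 3, 5, 7, 11, 13, 17, 19, 23, 29, 31, 37, 41, 43, 47} := by decide

lemma P_53 : P 53 ≤ 4.43 := by
  unfold P
  rw [primesBelow_53]
  norm_num [b_apply, F_two, F3, F5, F7, F11, F13, F17, F19, F23, F29, F31, F37, F41, F43, F47]

lemma small_sum : 2.69 ≤ ∑ n ∈ Finset.Icc 1 25, b n := by
  simp only [Finset.sum_Icc_succ_top (by norm_num : 1 ≤ _), Finset.Icc_self, Finset.sum_singleton]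
  norm_num [b_apply, F_one, F_two, F3, F4, F5, F6, F7, F8, F9, F10, F11, F12, F13, F14, F15, F16, F17, F18, F19, F20, F21, F22, F23, F24, F25]

lemma b_prime_le {p : ℕ} (hp : p.Prime) (h53 : 53 ≤ p) :
    b p ≤ 0.0987 * b ((p - 1) / 2) ∧ b p ≤ 0.035 := by
  have h2 : p ≠ 2 := by omega
  obtain ⟨m, hm⟩ := hp.odd_of_ne_two h2
  have hm' : (p - 1) / 2 = m := by omega
  have hm26 : 26 ≤ m := by omega
  have hF : F p = 1 + F m := by rw [F_prime_half hp h2, hm']
  have h1 : b p ≤ 0.0987 * b m := by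
    rw [b_apply, b_apply, hF, pow_add, pow_one]
    have hpm : (p : ℝ) ≤ (53 / 26 : ℝ) * m := by
      rw [hm]; push_cast
      have : (26 : ℝ) ≤ m := by exact_mod_cast hm26
      linarith
    have h3 : (p : ℝ) ^ 5 ≤ ((53 / 26 : ℝ) * m) ^ 5 := pow_le_pow_left₀ (by positivity) hpm 5
    have h4 : 0 ≤ (1 / 357 : ℝ) ^ F m := by positivity
    calc (p : ℝ) ^ 5 * ((1 / 357) * (1 / 357) ^ F m)
        ≤ ((53 / 26 : ℝ) * m) ^ 5 * ((1 / 357) * (1 / 357) ^ F m) :=
          mul_le_mul_of_nonneg_right h3 (by positivity)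
      _ = ((53 / 26 : ℝ) ^ 5 / 357) * ((m : ℝ) ^ 5 * (1 / 357) ^ F m) := by ring
      _ ≤ 0.0987 * ((m : ℝ) ^ 5 * (1 / 357) ^ F m) := by
          apply mul_le_mul_of_nonneg_right _ (by positivity)
          norm_num
  rw [hm']
  refine ⟨h1, ?_⟩
  have hF3 : 3 ≤ F m := by
    by_contra h
    have h3 := le_three_pow m
    have h4 : 3 ^ F m ≤ 3 ^ 2 := Nat.pow_le_pow_right (by norm_num) (by omega)
    omega
  have h5 := b_le_pow m
  have h6 : (243 / 357 : ℝ) ^ (F m) ≤ (243 / 357 : ℝ) ^ 3 :=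
    pow_le_pow_of_le_one (by norm_num) (by norm_num) hF3
  norm_num at h5 h6 ⊢
  linarith

lemma inv_le_exp {x : ℝ} (h0 : 0 ≤ x) (h1 : x ≤ 0.035) : (1 - x)⁻¹ ≤ Real.exp (1.04 * x) := by
  have hpos : 0 < 1 - x := by linarith
  have h2 : (1 - x)⁻¹ = x / (1 - x) + 1 := by field_simp; ring
  rw [h2]
  refine le_trans (Real.add_one_le_exp _) ?_
  apply Real.exp_le_exp.mpr
  rw [div_le_iff₀ hpos]
  nlinarith

lemma one_le_factor {p : ℕ} (hp : p.Prime) : 1 ≤ (1 - b p)⁻¹ := by
  have h1 := b_le p hp.two_le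
  have h2 := b_nonneg p
  rw [one_le_inv₀ (by linarith)]
  linarith

lemma P_pos (N : ℕ) : 0 < P N := by
  unfold P
  apply Finset.prod_pos
  intro p hp
  have := one_le_factor (Nat.mem_primesBelow.mp hp).2
  linarith

lemma P_split (M N : ℕ) (h : M ≤ N) :
    P N = (∏ p ∈ N.primesBelow \ M.primesBelow, (1 - b p)⁻¹) * P M := by
  unfold P
  rw [Finset.prod_sdiff]
  intro p hp
  rw [Nat.mem_primesBelow] at hp ⊢
  exact ⟨lt_of_lt_of_le hp.1 h, hp.2⟩

lemma P_mono {M N : ℕ} (h : M ≤ N) : P M ≤ P N := by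
  rw [P_split M N h]
  have h1 : ∏ p ∈ N.primesBelow \ M.primesBelow, (1 : ℝ) ≤
      ∏ p ∈ N.primesBelow \ M.primesBelow, (1 - b p)⁻¹ := by
    apply Finset.prod_le_prod
    · intro i _; norm_num
    · intro p hp
      exact one_le_factor (Nat.mem_primesBelow.mp (Finset.mem_sdiff.mp hp).1).2
  rw [Finset.prod_const_one] at h1
  have := P_pos M
  nlinarith

lemma exp_055 : Real.exp 0.5451 ≤ 1.7255 := by
  refine (Real.exp_bound' (x := 0.5451) (by norm_num) (by norm_num) (n := 5) (by norm_num)).trans ?_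
  norm_num [Finset.sum_range_succ, Nat.factorial]

/-- The key uniform bound. -/
lemma P_le (N : ℕ) : P N ≤ 8 := by
  induction N using Nat.strong_induction_on with
  | _ N ih =>
    rcases Nat.lt_or_ge N 54 with hN | hN
    · have := P_mono (show N ≤ 53 by omega)
      have := P_53
      linarith
    · rw [P_split 53 N (by omega)]
      have hmem : ∀ p ∈ N.primesBelow \ Nat.primesBelow 53, p.Prime ∧ 53 ≤ p ∧ p < N := by
        intro p hp
        rw [Finset.mem_sdiff, Nat.mem_primesBelow, Nat.mem_primesBelow] at hp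
        obtain ⟨⟨h1, h2⟩, h3⟩ := hp
        refine ⟨h2, ?_, h1⟩
        by_contra h
        exact h3 ⟨by omega, h2⟩
      have h1 : ∏ p ∈ N.primesBelow \ Nat.primesBelow 53, (1 - b p)⁻¹ ≤
          Real.exp (∑ p ∈ N.primesBelow \ Nat.primesBelow 53, 1.04 * b p) := by
        rw [Real.exp_sum]
        apply Finset.prod_le_prod
        · intro p hp
          have := one_le_factor (hmem p hp).1
          linarith
        · intro p hp
          exact inv_le_exp (b_nonneg p) (b_prime_le (hmem p hp).1 (hmem p hp).2.1).2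
      -- bound the sum
      have h2 : ∑ p ∈ N.primesBelow \ Nat.primesBelow 53, 1.04 * b p ≤ 0.5451 := by
        have h3 : ∑ p ∈ N.primesBelow \ Nat.primesBelow 53, 1.04 * b p ≤
            ∑ p ∈ N.primesBelow \ Nat.primesBelow 53, 1.04 * 0.0987 * b ((p - 1) / 2) := by
          apply Finset.sum_le_sum
          intro p hp
          have := (b_prime_le (hmem p hp).1 (hmem p hp).2.1).1
          linarith
        have hinj : Set.InjOn (fun p : ℕ => (p - 1) / 2)
            (N.primesBelow \ Nat.primesBelow 53 : Finset ℕ) := by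
          intro p hp q hq hpq
          have hp' := hmem p hp
          have hq' := hmem q hq
          obtain ⟨a, ha⟩ := hp'.1.odd_of_ne_two (by omega)
          obtain ⟨c, hc⟩ := hq'.1.odd_of_ne_two (by omega)
          simp only at hpq
          omega
        have h4 : ∑ p ∈ N.primesBelow \ Nat.primesBelow 53, b ((p - 1) / 2) =
            ∑ m ∈ (N.primesBelow \ Nat.primesBelow 53).image (fun p => (p - 1) / 2), b m := by
          rw [Finset.sum_image hinj]
        have h5 : ∑ m ∈ (N.primesBelow \ Nat.primesBelow 53).image (fun p => (p - 1) / 2), b m +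
            ∑ m ∈ Finset.Icc 1 25, b m ≤ P (N / 2) := by
          rw [← Finset.sum_union]
          · apply sum_le_P
            intro m hm
            rw [Finset.mem_union, Finset.mem_image, Finset.mem_Icc] at hm
            rcases hm with ⟨p, hp, rfl⟩ | hm
            · have hp' := hmem p hp
              obtain ⟨a, ha⟩ := hp'.1.odd_of_ne_two (by omega)
              omega
            · omega
          · rw [Finset.disjoint_left]
            intro m hm hm'
            rw [Finset.mem_image] at hm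
            obtain ⟨p, hp, rfl⟩ := hm
            rw [Finset.mem_Icc] at hm'
            have hp' := hmem p hp
            omega
        have h6 := ih (N / 2) (by omega)
        have h7 := small_sum
        have h8 : ∑ p ∈ N.primesBelow \ Nat.primesBelow 53, 1.04 * 0.0987 * b ((p - 1) / 2) =
            1.04 * 0.0987 *
              ∑ m ∈ (N.primesBelow \ Nat.primesBelow 53).image (fun p => (p - 1) / 2), b m := by
          rw [← Finset.mul_sum, h4]
        rw [h8] at h3
        refine h3.trans ?_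
        have h9 : ∑ m ∈ (N.primesBelow \ Nat.primesBelow 53).image (fun p => (p - 1) / 2), b m ≤
            5.31 := by
          norm_num at h7 ⊢
          linarith
        calc 1.04 * 0.0987 *
              ∑ m ∈ (N.primesBelow \ Nat.primesBelow 53).image (fun p => (p - 1) / 2), b m
            ≤ 1.04 * 0.0987 * 5.31 := by
              apply mul_le_mul_of_nonneg_left h9 (by norm_num)
          _ ≤ 0.5451 := by norm_num
      have h8 := P_53
      have h9 := P_pos 53
      calc (∏ p ∈ N.primesBelow \ Nat.primesBelow 53, (1 - b p)⁻¹) * P 53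
          ≤ Real.exp 0.5451 * P 53 := by
            apply mul_le_mul_of_nonneg_right _ h9.le
            exact h1.trans (Real.exp_le_exp.mpr h2)
        _ ≤ 1.7255 * 4.43 := by
            apply mul_le_mul exp_055 h8 h9.le (by norm_num)
        _ ≤ 8 := by norm_num

/-! ### Counting -/

lemma exp_0122 : Real.exp 0.122 ≤ 1.13 := by
  refine (Real.exp_bound' (x := 0.122) (by norm_num) (by norm_num) (n := 4) (by norm_num)).trans ?_
  norm_num [Finset.sum_range_succ, Nat.factorial]

lemma log_357 : Real.log 357 ≤ 5.878 := by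
  rw [Real.log_le_iff_le_exp (by norm_num)]
  have h1 : (2.7182818283 : ℝ) < Real.exp 1 := Real.exp_one_gt_d9
  have h2 : Real.exp 5.878 * Real.exp 0.122 = Real.exp 1 ^ 6 := by
    rw [← Real.exp_nat_mul, ← Real.exp_add]
    norm_num
  have h3 := exp_0122
  have h4 : (2.7182818283 : ℝ) ^ 6 ≤ Real.exp 1 ^ 6 := pow_le_pow_left₀ (by norm_num) h1.le 6
  have h5 : (0 : ℝ) < Real.exp 5.878 := Real.exp_pos _
  have h6 : Real.exp 5.878 * Real.exp 0.122 ≤ Real.exp 5.878 * 1.13 :=
    mul_le_mul_of_nonneg_left h3 h5.le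
  rw [h2] at h6
  have h7 : (357 : ℝ) * 1.13 ≤ 2.7182818283 ^ 6 := by norm_num
  nlinarith

/-- If `F n ≤ 1.02 log n` then `1 ≤ b n * n ^ 0.996`. -/
lemma one_le_b_mul (n : ℕ) (hn : 1 ≤ n) (h : (F n : ℝ) ≤ 1.02 * Real.log n) :
    1 ≤ b n * (n : ℝ) ^ (0.996 : ℝ) := by
  have hn0 : (0 : ℝ) < n := by exact_mod_cast hn
  have hlog : 0 ≤ Real.log n := Real.log_nonneg (by exact_mod_cast hn)
  have hb : b n = Real.exp (5 * Real.log n - F n * Real.log 357) := by
    rw [b_apply, Real.exp_sub, mul_comm (5 : ℝ), Real.exp_mul, Real.exp_log hn0,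
      mul_comm (F n : ℝ), Real.exp_mul, Real.exp_log (by norm_num)]
    norm_num
    rw [one_div, inv_pow, div_eq_mul_inv]
  rw [hb, Real.rpow_def_of_pos hn0, ← Real.exp_add]
  apply Real.one_le_exp
  have h1 := log_357
  have h2 : (F n : ℝ) * Real.log 357 ≤ (1.02 * Real.log n) * 5.878 := by
    apply mul_le_mul h h1 (Real.log_nonneg (by norm_num))
    positivity
  nlinarith

/-- The number of iterations of the totient needed to reach `1`: the least `k ≥ 1` with
`φ_k(n) = 1`. -/
noncomputable def f (n : ℕ) : ℕ := sInf {k : ℕ | 1 ≤ k ∧ Nat.totient^[k] n = 1}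

/-- **Theorem.** For all but at most `8 x^{0.996}` of the integers `n ≤ x` the stopping time `f n`
of the iterated totient is larger than `1.02 log n`. -/
theorem result : ∀ N : ℕ,
    (((Finset.Icc 1 N).filter (fun n : ℕ => (f n : ℝ) ≤ 1.02 * Real.log n)).card : ℝ) ≤
      8 * (N : ℝ) ^ (0.996 : ℝ) := by
  intro N
  set S := (Finset.Icc 1 N).filter (fun n : ℕ => (f n : ℝ) ≤ 1.02 * Real.log n) with hS
  have h1 : ∀ n ∈ S, (1 : ℝ) ≤ b n * (N : ℝ) ^ (0.996 : ℝ) := by
    intro n hn
    rw [hS, Finset.mem_filter, Finset.mem_Icc] at hn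
    obtain ⟨⟨hn1, hnN⟩, hf⟩ := hn
    have h2 : (F n : ℝ) ≤ 1.02 * Real.log n := by
      have : (F n : ℝ) ≤ f n := by exact_mod_cast F_le_stop n (by omega)
      linarith
    refine (one_le_b_mul n hn1 h2).trans ?_
    apply mul_le_mul_of_nonneg_left _ (b_nonneg n)
    apply Real.rpow_le_rpow (by positivity) (by exact_mod_cast hnN) (by norm_num)
  calc ((S.card : ℕ) : ℝ) = ∑ n ∈ S, (1 : ℝ) := by simp
    _ ≤ ∑ n ∈ S, b n * (N : ℝ) ^ (0.996 : ℝ) := Finset.sum_le_sum h1
    _ = (∑ n ∈ S, b n) * (N : ℝ) ^ (0.996 : ℝ) := by rw [Finset.sum_mul]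
    _ ≤ 8 * (N : ℝ) ^ (0.996 : ℝ) := by
      apply mul_le_mul_of_nonneg_right _ (by positivity)
      refine (sum_le_P (N + 1) S ?_).trans (P_le _)
      intro n hn
      rw [hS, Finset.mem_filter, Finset.mem_Icc] at hn
      omega

end Pool.Agent.Results.MP_628140_nt.LowerBound
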