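import Mathlib
import Pool.Agent.IterTotient

set_option autoImplicit false

namespace Pool.Agent.Results.MP_628140_nt.UpperBound

open Pool.Agent.IterTotient

/-- completely multiplicative weight `17740 ^ (F n) / n^15` -/
noncomputable def b : ℕ →* ℝ where
  toFun n := (17740 : ℝ) ^ (F n) / (n : ℝ) ^ 15
  map_one' := by simp
  map_mul' m n := by
    by_cases hm : m = 0
    · subst hm; simp
    by_cases hn : n = 0
    · subst hn; simp
    rw [F_mul hm hn, pow_add]
    push_cast
    rw [mul_pow, div_mul_div_comm]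

lemma b_apply (n : ℕ) : b n = (17740 : ℝ) ^ (F n) / (n : ℝ) ^ 15 := rfl

lemma b_nonneg (n : ℕ) : 0 ≤ b n := by rw [b_apply]; positivity

/-- the value at `2` -/
noncomputable def x : ℝ := 17740 / 32768

lemma b_two : b 2 = x := by rw [b_apply, F_two]; norm_num [x]

lemma x_nonneg : 0 ≤ x := by norm_num [x]
lemma x_lt_one : x < 1 := by norm_num [x]

lemma F3 : F 3 = 1 := by rw [F_prime_half (by norm_num) (by norm_num)]; norm_num
lemma F5 : F 5 = 2 := by rw [F_prime_half (by norm_num) (by norm_num)]; norm_num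
lemma F7 : F 7 = 2 := by rw [F_prime_half (by norm_num) (by norm_num)]; norm_num [F3]
lemma F11 : F 11 = 3 := by rw [F_prime_half (by norm_num) (by norm_num)]; norm_num [F5]
lemma F6 : F 6 = 2 := by
  rw [show 6 = 2 * 3 by norm_num, F_mul (by norm_num) (by norm_num)]; norm_num [F3]
lemma F4 : F 4 = 2 := by
  rw [show 4 = 2 * 2 by norm_num, F_mul (by norm_num) (by norm_num)]; norm_num
lemma F8 : F 8 = 3 := by
  rw [show 8 = 2 * 4 by norm_num, F_mul (by norm_num) (by norm_num)]; norm_num [F4]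
lemma F13 : F 13 = 3 := by rw [F_prime_half (by norm_num) (by norm_num)]; norm_num [F6]
lemma F17 : F 17 = 4 := by rw [F_prime_half (by norm_num) (by norm_num)]; norm_num [F8]

lemma b3 : b 3 = 17740 / 3 ^ 15 := by rw [b_apply, F3]; norm_num
lemma b5 : b 5 = 17740 ^ 2 / 5 ^ 15 := by rw [b_apply, F5]; norm_num
lemma b17 : b 17 = 17740 ^ 4 / 17 ^ 15 := by rw [b_apply, F17]; norm_num

/-- decomposition `p = 2 ^ v * m + 1` of an odd prime -/
lemma exists_decomp (p : ℕ) (hp : p.Prime) (h2 : p ≠ 2) :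
    ∃ v m : ℕ, 1 ≤ v ∧ Odd m ∧ p = 2 ^ v * m + 1 := by
  have h1 : p - 1 ≠ 0 := by have := hp.two_le; omega
  obtain ⟨v, m, hm, hvm⟩ := Nat.exists_eq_two_pow_mul_odd h1
  refine ⟨v, m, ?_, hm, by omega⟩
  by_contra hv
  have hv0 : v = 0 := by omega
  subst hv0
  have hodd := hp.odd_of_ne_two h2
  obtain ⟨k, hk⟩ := hodd
  obtain ⟨l, hl⟩ := hm
  simp at hvm
  omega

lemma F_decomp {p v m : ℕ} (hp : p.Prime) (hv : 1 ≤ v) (hm : Odd m) (h : p = 2 ^ v * m + 1) :
    F p = v + F m := by
  have hm0 : m ≠ 0 := by rintro rfl; simp at hm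
  have h2 : p ≠ 2 := by
    intro h2
    have h3 : 2 ≤ 2 ^ v := by
      calc 2 = 2 ^ 1 := by norm_num
        _ ≤ 2 ^ v := Nat.pow_le_pow_right (by norm_num) hv
    have h4 : 1 ≤ m := Nat.pos_of_ne_zero hm0
    nlinarith
  rw [F_prime_odd hp h2, h, Nat.add_sub_cancel, F_mul (by positivity) hm0,
    F_pow 2 v (by norm_num), F_two, mul_one]

lemma b_decomp {p v m : ℕ} (hp : p.Prime) (hv : 1 ≤ v) (hm : Odd m) (h : p = 2 ^ v * m + 1) :
    b p ≤ x ^ v * b m := by
  have hm0 : m ≠ 0 := by rintro rfl; simp at hm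
  have h1 : b (2 ^ v * m) = x ^ v * b m := by
    rw [map_mul, map_pow, b_two]
  rw [← h1, b_apply, b_apply, F_decomp hp hv hm h, F_mul (by positivity) hm0,
    F_pow 2 v (by norm_num), F_two, mul_one]
  apply div_le_div_of_nonneg_left (by positivity)
  · have : (0 : ℝ) < (2 ^ v * m : ℕ) := by exact_mod_cast Nat.pos_of_ne_zero (by positivity)
    positivity
  · apply pow_le_pow_left₀ (by positivity)
    rw [h]; push_cast; linarith

/-! ### Which exponents `v` can occur -/

lemma two_pow_mod_three (v : ℕ) : 2 ^ v % 3 = if Even v then 1 else 2 := by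
  induction v with
  | zero => simp
  | succ v ih =>
    rw [pow_succ, Nat.mul_mod, ih]
    by_cases h : Even v
    · have h' : ¬ Even (v + 1) := by
        rw [Nat.even_add_one]; simpa using h
      rw [if_pos h, if_neg h']
    · have h' : Even (v + 1) := by
        rw [Nat.even_add_one]; exact h
      rw [if_neg h, if_pos h']

lemma odd_of_two_mod {p v m : ℕ} (hp : p.Prime) (h19 : 19 ≤ p) (hm : m % 3 = 2)
    (h : p = 2 ^ v * m + 1) : ¬ Even v := by
  intro hv
  have h1 := two_pow_mod_three v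
  rw [if_pos hv] at h1
  have h2 : 3 ∣ p := by
    apply Nat.dvd_of_mod_eq_zero
    rw [h, Nat.add_mod, Nat.mul_mod, h1, hm]
  have := (Nat.prime_dvd_prime_iff_eq Nat.prime_three hp).mp h2
  omega

lemma even_of_one_mod {p v m : ℕ} (hp : p.Prime) (h19 : 19 ≤ p) (hm : m % 3 = 1)
    (h : p = 2 ^ v * m + 1) : Even v := by
  by_contra hv
  have h1 := two_pow_mod_three v
  rw [if_neg hv] at h1
  have h2 : 3 ∣ p := by
    apply Nat.dvd_of_mod_eq_zero
    rw [h, Nat.add_mod, Nat.mul_mod, h1, hm]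
  have := (Nat.prime_dvd_prime_iff_eq Nat.prime_three hp).mp h2
  omega

lemma v_of_one {p v : ℕ} (hp : p.Prime) (h19 : 19 ≤ p) (h : p = 2 ^ v * 1 + 1) :
    v = 8 ∨ 16 ≤ v := by
  by_contra hcon
  push Not at hcon
  obtain ⟨h8, h16⟩ := hcon
  subst h
  interval_cases v <;> first | omega | (revert hp; norm_num)

lemma v_of_five {p v : ℕ} (hp : p.Prime) (h19 : 19 ≤ p) (h : p = 2 ^ v * 5 + 1) :
    v = 3 ∨ (7 ≤ v ∧ ¬ Even v) := by
  have hodd := odd_of_two_mod hp h19 (by norm_num) h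
  by_contra hcon
  push Not at hcon
  obtain ⟨h8, h16⟩ := hcon
  have h7 : v < 7 := by
    by_contra h7
    exact hodd (h16 (by omega))
  subst h
  interval_cases v <;> first | omega | (revert hp; norm_num)

lemma v_of_seventeen {p v : ℕ} (hp : p.Prime) (h19 : 19 ≤ p) (h : p = 2 ^ v * 17 + 1) :
    v = 3 ∨ (9 ≤ v ∧ ¬ Even v) := by
  have hodd := odd_of_two_mod hp h19 (by norm_num) h
  by_contra hcon
  push Not at hcon
  obtain ⟨h8, h16⟩ := hcon
  have h7 : v < 9 := by
    by_contra h7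
    exact hodd (h16 (by omega))
  subst h
  interval_cases v <;> first | omega | (revert hp; norm_num)

/-! ### Bounds for `b` at odd numbers -/

lemma x_pow_le {a v : ℕ} (h : a ≤ v) : x ^ v ≤ x ^ a :=
  pow_le_pow_of_le_one x_nonneg x_lt_one.le h

lemma b_odd_bound (m : ℕ) : Odd m → 3 ≤ m →
    (b m ≤ 0.0347 ∧ (m ≠ 17 → b m ≤ 0.0104) ∧ (m.Prime → 19 ≤ m → b m ≤ 0.0075)) := by
  induction m using Nat.strong_induction_on with
  | _ m ih =>
    intro hodd h3
    by_cases hp : m.Prime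
    · rcases Nat.lt_or_ge m 19 with h19 | h19
      · have hm : m = 3 ∨ m = 5 ∨ m = 7 ∨ m = 11 ∨ m = 13 ∨ m = 17 := by
          interval_cases m <;> first | (revert hodd; decide) | tauto
        rcases hm with rfl | rfl | rfl | rfl | rfl | rfl
        · rw [b_apply, F3]; norm_num
        · rw [b_apply, F5]; norm_num
        · rw [b_apply, F7]; norm_num
        · rw [b_apply, F11]; norm_num
        · rw [b_apply, F13]; norm_num
        · rw [b_apply, F17]; norm_num
      · have key : b m ≤ 0.0075 := by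
          obtain ⟨v, k, hv, hk, hmk⟩ := exists_decomp m hp (by omega)
          refine (b_decomp hp hv hk hmk).trans ?_
          have hk0 : 0 < k := by rcases hk with ⟨l, hl⟩; omega
          have hklt : k < m := by
            have : 1 ≤ 2 ^ v := Nat.one_le_two_pow
            nlinarith
          have hx0 : 0 ≤ x ^ v := pow_nonneg x_nonneg v
          by_cases hk1 : k = 1
          · subst hk1
            have hv8 : 8 ≤ v := by
              rcases v_of_one hp h19 hmk with h | h <;> omega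
            rw [map_one, mul_one]
            refine (x_pow_le hv8).trans ?_
            norm_num [x]
          · have hk3 : 3 ≤ k := by rcases hk with ⟨l, hl⟩; omega
            obtain ⟨i1, i2, -⟩ := ih k hklt hk hk3
            by_cases hk17 : k = 17
            · subst hk17
              have hv3 : 3 ≤ v := by
                rcases v_of_seventeen hp h19 hmk with h | h <;> omega
              calc x ^ v * b 17 ≤ x ^ 3 * 0.0347 :=
                    mul_le_mul (x_pow_le hv3) i1 (b_nonneg _) (pow_nonneg x_nonneg 3)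
                _ ≤ 0.0075 := by norm_num [x]
            · calc x ^ v * b k ≤ x ^ 1 * 0.0104 :=
                    mul_le_mul (x_pow_le hv) (i2 hk17) (b_nonneg _) (pow_nonneg x_nonneg 1)
                _ ≤ 0.0075 := by norm_num [x]
        refine ⟨by linarith, fun _ => by linarith, fun _ _ => key⟩
    · obtain ⟨a, c, ha, hc, hac⟩ : ∃ a c, a < m ∧ c < m ∧ m = a * c := by
        obtain ⟨a, ha1, ha2, ha3⟩ := Nat.exists_dvd_of_not_prime2 (by omega) hp
        obtain ⟨c, hc⟩ := ha1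
        refine ⟨a, c, ha3, ?_, hc⟩
        rw [hc]
        nlinarith [Nat.pos_of_ne_zero (by rintro rfl; omega : c ≠ 0)]
      have hodd' := hodd
      rw [hac, Nat.odd_mul] at hodd'
      obtain ⟨hao, hco⟩ := hodd'
      have ha3 : 3 ≤ a := by
        rcases hao with ⟨l, hl⟩
        by_contra h
        have : a = 1 := by omega
        subst this; omega
      have hc3 : 3 ≤ c := by
        rcases hco with ⟨l, hl⟩
        by_contra h
        have : c = 1 := by omega
        subst this; omega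
      have h1 := (ih a ha hao ha3).1
      have h2 := (ih c hc hco hc3).1
      have h4 : b m ≤ 0.0347 * 0.0347 := by
        rw [hac, map_mul]
        exact mul_le_mul h1 h2 (b_nonneg _) (by norm_num)
      norm_num at h4 ⊢
      refine ⟨by linarith, fun _ => by linarith, fun h => absurd h hp⟩

/-! ### Euler products -/

lemma b_prime_lt_one {p : ℕ} (hp : p.Prime) : ‖b p‖ < 1 := by
  rw [Real.norm_eq_abs, abs_of_nonneg (b_nonneg p)]
  by_cases h2 : p = 2
  · rw [h2, b_two]; exact x_lt_one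
  · have := (b_odd_bound p (hp.odd_of_ne_two h2) (by
      have := hp.two_le; omega)).1
    norm_num at this ⊢
    linarith

open Classical in
/-- the restriction of `b` to odd numbers -/
noncomputable def c : ℕ →* ℝ where
  toFun n := if Even n then 0 else b n
  map_one' := by simp
  map_mul' m n := by
    by_cases hm : Even m
    · simp [hm, Even.mul_right hm n]
    · by_cases hn : Even n
      · simp [hn, Even.mul_left hn m]
      · have : ¬ Even (m * n) := by
          rw [Nat.even_mul]; tauto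
        rw [if_neg this, if_neg hm, if_neg hn, map_mul]

lemma c_odd {n : ℕ} (h : Odd n) : c n = b n := by
  have : ¬ Even n := Nat.not_even_iff_odd.mpr h
  change (if Even n then 0 else b n) = b n
  rw [if_neg this]

lemma c_two : c 2 = 0 := by
  change (if Even 2 then 0 else b 2) = 0
  simp

lemma c_nonneg (n : ℕ) : 0 ≤ c n := by
  change 0 ≤ (if Even n then 0 else b n)
  split_ifs
  · exact le_refl _
  · exact b_nonneg n

lemma c_le (n : ℕ) : c n ≤ b n := by
  change (if Even n then 0 else b n) ≤ b n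
  split_ifs
  · exact b_nonneg n
  · exact le_refl _

lemma c_prime_lt_one {p : ℕ} (hp : p.Prime) : ‖c p‖ < 1 := by
  have h1 := b_prime_lt_one hp
  rw [Real.norm_eq_abs, abs_of_nonneg (b_nonneg p)] at h1
  rw [Real.norm_eq_abs, abs_of_nonneg (c_nonneg p)]
  exact lt_of_le_of_lt (c_le p) h1

/-- Euler product over odd primes below `N` -/
noncomputable def D (N : ℕ) : ℝ := ∏ p ∈ N.primesBelow, (1 - c p)⁻¹

lemma sum_le_prod (f : ℕ →* ℝ) (hf : ∀ {p : ℕ}, p.Prime → ‖f p‖ < 1) (hf0 : ∀ n, 0 ≤ f n)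
    (N : ℕ) (s : Finset ℕ) (hs : ∀ n ∈ s, 0 < n ∧ n < N) :
    ∑ n ∈ s, f n ≤ ∏ p ∈ N.primesBelow, (1 - f p)⁻¹ := by
  obtain ⟨-, h2⟩ := EulerProduct.summable_and_hasSum_smoothNumbers_prod_primesBelow_geometric
    (f := f) hf N
  let t : Finset N.smoothNumbers := s.attach.map
    ⟨fun n => ⟨n.1, Nat.mem_smoothNumbers_of_lt (hs n.1 n.2).1 (hs n.1 n.2).2⟩, by
      intro x y hxy
      have := congrArg Subtype.val hxy
      exact Subtype.ext this⟩
  have h3 := sum_le_hasSum t (fun i _ => hf0 i.1) h2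
  have h4 : ∑ i ∈ t, f i.1 = ∑ n ∈ s, f n := by
    rw [Finset.sum_map]
    exact Finset.sum_attach s (fun n => f n)
  rw [h4] at h3
  exact h3

lemma sum_odd_le_D (N : ℕ) (s : Finset ℕ) (hs : ∀ n ∈ s, Odd n ∧ n < N) :
    ∑ n ∈ s, b n ≤ D N := by
  have h1 : ∑ n ∈ s, b n = ∑ n ∈ s, c n :=
    Finset.sum_congr rfl (fun n hn => (c_odd (hs n hn).1).symm)
  rw [h1]
  apply sum_le_prod c c_prime_lt_one c_nonneg N s
  intro n hn
  obtain ⟨⟨k, hk⟩, h2⟩ := hs n hn
  omega

lemma one_le_factor {p : ℕ} (hp : p.Prime) : 1 ≤ (1 - c p)⁻¹ := by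
  have h1 := c_prime_lt_one hp
  rw [Real.norm_eq_abs, abs_of_nonneg (c_nonneg p)] at h1
  have h2 := c_nonneg p
  rw [one_le_inv₀ (by linarith)]
  linarith

lemma D_pos (N : ℕ) : 0 < D N := by
  unfold D
  apply Finset.prod_pos
  intro p hp
  have := one_le_factor (Nat.mem_primesBelow.mp hp).2
  linarith

lemma D_split (M N : ℕ) (h : M ≤ N) :
    D N = (∏ p ∈ N.primesBelow \ M.primesBelow, (1 - c p)⁻¹) * D M := by
  unfold D
  rw [Finset.prod_sdiff]
  intro p hp
  rw [Nat.mem_primesBelow] at hp ⊢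
  exact ⟨lt_of_lt_of_le hp.1 h, hp.2⟩

lemma D_mono {M N : ℕ} (h : M ≤ N) : D M ≤ D N := by
  rw [D_split M N h]
  have h1 : ∏ p ∈ N.primesBelow \ M.primesBelow, (1 : ℝ) ≤
      ∏ p ∈ N.primesBelow \ M.primesBelow, (1 - c p)⁻¹ := by
    apply Finset.prod_le_prod
    · intro i _; norm_num
    · intro p hp
      exact one_le_factor (Nat.mem_primesBelow.mp (Finset.mem_sdiff.mp hp).1).2
  rw [Finset.prod_const_one] at h1
  have := D_pos M
  nlinarith

lemma primesBelow_19 : Nat.primesBelow 19 = {2, 3, 5, 7, 11, 13, 17} := by decide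

lemma D_19 : D 19 ≤ 1.04952 := by
  unfold D
  rw [primesBelow_19]
  have e3 : c 3 = b 3 := c_odd (by decide)
  have e5 : c 5 = b 5 := c_odd (by decide)
  have e7 : c 7 = b 7 := c_odd (by decide)
  have e11 : c 11 = b 11 := c_odd (by decide)
  have e13 : c 13 = b 13 := c_odd (by decide)
  have e17 : c 17 = b 17 := c_odd (by decide)
  norm_num [c_two, e3, e5, e7, e11, e13, e17, b_apply, F3, F5, F7, F11, F13, F17]

/-! ### Geometric sums -/

lemma geo (V : Finset ℕ) (a s : ℕ) (hs : 1 ≤ s) (hV : ∀ v ∈ V, ∃ j, v = a + s * j) :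
    ∑ v ∈ V, x ^ v ≤ x ^ a / (1 - x ^ s) := by
  classical
  have hx0 := x_nonneg
  have hx1 := x_lt_one
  have hxs0 : 0 ≤ x ^ s := pow_nonneg hx0 s
  have hxs1 : x ^ s < 1 := pow_lt_one₀ hx0 hx1 (by omega)
  have h1 : HasSum (fun j : ℕ => x ^ a * (x ^ s) ^ j) (x ^ a * (1 - x ^ s)⁻¹) :=
    (hasSum_geometric_of_lt_one hxs0 hxs1).mul_left _
  choose! g hg using hV
  have hinj : Set.InjOn g V := by
    intro u hu v hv huv
    rw [hg u hu, hg v hv, huv]
  have h2 : ∑ v ∈ V, x ^ v = ∑ j ∈ V.image g, x ^ a * (x ^ s) ^ j := by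
    rw [Finset.sum_image hinj]
    apply Finset.sum_congr rfl
    intro v hv
    conv_lhs => rw [hg v hv]
    rw [pow_add, pow_mul]
  rw [h2, div_eq_mul_inv]
  exact sum_le_hasSum _ (fun j _ => by positivity) h1

/-- the same with one exceptional exponent -/
lemma geo' (V : Finset ℕ) (e a s : ℕ) (hs : 1 ≤ s)
    (hV : ∀ v ∈ V, v = e ∨ ∃ j, v = a + s * j) :
    ∑ v ∈ V, x ^ v ≤ x ^ e + x ^ a / (1 - x ^ s) := by
  classical
  rw [← Finset.sum_filter_add_sum_filter_not V (fun v => v = e)]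
  apply add_le_add
  · calc ∑ v ∈ V.filter (fun v => v = e), x ^ v ≤ ∑ v ∈ ({e} : Finset ℕ), x ^ v := by
          apply Finset.sum_le_sum_of_subset_of_nonneg
          · intro v hv
            rw [Finset.mem_filter] at hv
            simp [hv.2]
          · intro v _ _; exact pow_nonneg x_nonneg v
      _ = x ^ e := by simp
  · apply geo _ a s hs
    intro v hv
    rw [Finset.mem_filter] at hv
    rcases hV v hv.1 with h | h
    · exact absurd h hv.2
    · exact h

/-- weight of an odd number `m`: bound for the sum of `x ^ v` over the primes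
`2 ^ v * m + 1 ≥ 19` -/
noncomputable def w (m : ℕ) : ℝ :=
  if m = 1 then x ^ 8 + x ^ 16 / (1 - x)
  else if m = 5 then x ^ 3 + x ^ 7 / (1 - x ^ 2)
  else if m = 17 then x ^ 3 + x ^ 9 / (1 - x ^ 2)
  else if m % 3 = 0 then x / (1 - x)
  else x / (1 - x ^ 2)

lemma w_bound (m : ℕ) (V : Finset ℕ)
    (hV : ∀ v ∈ V, 1 ≤ v ∧ (2 ^ v * m + 1).Prime ∧ 19 ≤ 2 ^ v * m + 1) :
    ∑ v ∈ V, x ^ v ≤ w m := by
  unfold w
  split_ifs with h1 h5 h17 h0
  · subst h1
    have := geo' V 8 16 1 (le_refl _) (by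
      intro v hv
      obtain ⟨_, h2, h3⟩ := hV v hv
      rcases v_of_one h2 h3 rfl with h | h
      · exact Or.inl h
      · exact Or.inr ⟨v - 16, by omega⟩)
    simpa using this
  · subst h5
    apply geo' V 3 7 2 (by norm_num)
    intro v hv
    obtain ⟨_, h2, h3⟩ := hV v hv
    rcases v_of_five h2 h3 rfl with h | ⟨h, h'⟩
    · exact Or.inl h
    · rw [Nat.not_even_iff_odd] at h'
      obtain ⟨k, hk⟩ := h'
      exact Or.inr ⟨k - 3, by omega⟩
  · subst h17
    apply geo' V 3 9 2 (by norm_num)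
    intro v hv
    obtain ⟨_, h2, h3⟩ := hV v hv
    rcases v_of_seventeen h2 h3 rfl with h | ⟨h, h'⟩
    · exact Or.inl h
    · rw [Nat.not_even_iff_odd] at h'
      obtain ⟨k, hk⟩ := h'
      exact Or.inr ⟨k - 4, by omega⟩
  · have := geo V 1 1 (le_refl _) (by
      intro v hv
      obtain ⟨h1, _, _⟩ := hV v hv
      exact ⟨v - 1, by omega⟩)
    simpa using this
  · have hm : m % 3 = 1 ∨ m % 3 = 2 := by omega
    rcases hm with hm | hm
    · have := geo V 2 2 (by norm_num) (by
        intro v hv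
        obtain ⟨h1, h2, h3⟩ := hV v hv
        obtain ⟨k, hk⟩ := even_of_one_mod h2 h3 hm rfl
        exact ⟨k - 1, by omega⟩)
      refine this.trans ?_
      norm_num [x]
    · have := geo V 1 2 (by norm_num) (by
        intro v hv
        obtain ⟨h1, h2, h3⟩ := hV v hv
        have h4 := odd_of_two_mod h2 h3 hm rfl
        rw [Nat.not_even_iff_odd] at h4
        obtain ⟨k, hk⟩ := h4
        exact ⟨k, by omega⟩)
      simpa using this

lemma w_nonneg (m : ℕ) : 0 ≤ w m := by
  have := w_bound m ∅ (by simp)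
  simpa using this

/-- the 2-adic exponent and odd part of `p - 1` -/
noncomputable def vv (p : ℕ) : ℕ := (p - 1).factorization 2
noncomputable def mm (p : ℕ) : ℕ := (p - 1) / 2 ^ (vv p)

lemma decomp_spec {p : ℕ} (hp : p.Prime) (h2 : p ≠ 2) :
    1 ≤ vv p ∧ Odd (mm p) ∧ p = 2 ^ (vv p) * mm p + 1 := by
  obtain ⟨v, m, hv, hm, hpm⟩ := exists_decomp p hp h2
  have hm0 : m ≠ 0 := by rintro rfl; simp at hm
  have h1 : p - 1 = 2 ^ v * m := by omega
  have h3 : vv p = v := by
    unfold vv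
    rw [h1, Nat.factorization_mul (by positivity) hm0, Nat.factorization_pow]
    simp only [Finsupp.coe_add, Finsupp.coe_smul, Pi.add_apply, Pi.smul_apply, smul_eq_mul]
    rw [Nat.Prime.factorization_self Nat.prime_two,
      Nat.factorization_eq_zero_of_not_dvd (by
        intro h; rw [← even_iff_two_dvd] at h
        exact (Nat.not_even_iff_odd.mpr hm) h)]
    ring
  have h4 : mm p = m := by
    unfold mm
    rw [h3, h1, Nat.mul_div_cancel_left _ (by positivity)]
  rw [h3, h4]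
  exact ⟨hv, hm, hpm⟩

lemma sum_rest (N L : ℕ) (hN : N ≤ 2 * L)
    (R : Finset ℕ) (hR : ∀ p ∈ R, p.Prime ∧ 19 ≤ p ∧ p < N) :
    ∑ p ∈ R, b p ≤ ∑ m ∈ (Finset.range L).filter (fun m => Odd m), b m * w m := by
  classical
  have h0 : ∀ p ∈ R, mm p ∈ (Finset.range L).filter (fun m => Odd m) := by
    intro p hp
    obtain ⟨h1, h2, h3⟩ := hR p hp
    obtain ⟨k1, k2, k3⟩ := decomp_spec h1 (by omega)
    rw [Finset.mem_filter, Finset.mem_range]
    refine ⟨?_, k2⟩
    have : 2 ≤ 2 ^ vv p := by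
      calc 2 = 2 ^ 1 := by norm_num
        _ ≤ 2 ^ vv p := Nat.pow_le_pow_right (by norm_num) k1
    nlinarith
  rw [← Finset.sum_fiberwise_of_maps_to h0]
  apply Finset.sum_le_sum
  intro m hm
  rw [Finset.mem_filter] at hm
  have h1 : ∑ p ∈ R.filter (fun p => mm p = m), b p ≤
      ∑ p ∈ R.filter (fun p => mm p = m), x ^ vv p * b m := by
    apply Finset.sum_le_sum
    intro p hp
    rw [Finset.mem_filter] at hp
    obtain ⟨h1, h2, h3⟩ := hR p hp.1
    obtain ⟨k1, k2, k3⟩ := decomp_spec h1 (by omega)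
    rw [← hp.2]
    exact b_decomp h1 k1 k2 k3
  refine h1.trans ?_
  rw [← Finset.sum_mul, mul_comm]
  apply mul_le_mul_of_nonneg_left _ (b_nonneg m)
  have hinj : Set.InjOn vv (R.filter (fun p => mm p = m) : Finset ℕ) := by
    intro p hp q hq hpq
    rw [Finset.mem_coe, Finset.mem_filter] at hp hq
    obtain ⟨h1, h2, h3⟩ := hR p hp.1
    obtain ⟨k1, k2, k3⟩ := decomp_spec h1 (by omega)
    obtain ⟨h1', h2', h3'⟩ := hR q hq.1
    obtain ⟨k1', k2', k3'⟩ := decomp_spec h1' (by omega)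
    rw [k3, k3', hp.2, hq.2, hpq]
  have h2 : ∑ p ∈ R.filter (fun p => mm p = m), x ^ vv p =
      ∑ v ∈ (R.filter (fun p => mm p = m)).image vv, x ^ v := by
    rw [Finset.sum_image hinj]
  rw [h2]
  apply w_bound
  intro v hv
  rw [Finset.mem_image] at hv
  obtain ⟨p, hp, rfl⟩ := hv
  rw [Finset.mem_filter] at hp
  obtain ⟨h1, h2, h3⟩ := hR p hp.1
  obtain ⟨k1, k2, k3⟩ := decomp_spec h1 (by omega)
  rw [← hp.2, ← k3]
  exact ⟨k1, h1, h2⟩

lemma numeric :
    (x ^ 8 + x ^ 16 / (1 - x)) + b 5 * (x ^ 3 + x ^ 7 / (1 - x ^ 2)) +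
      b 17 * (x ^ 3 + x ^ 9 / (1 - x ^ 2)) + x / (1 - x ^ 2) * (1.3 - 1 - b 5 - b 17) +
      (x / (1 - x) - x / (1 - x ^ 2)) * (b 3 * 1.3) ≤ 0.21105 := by
  rw [b3, b5, b17]
  norm_num [x]

lemma sum_weights (L : ℕ) (hL : 19 ≤ L) (hD : D L ≤ 1.3) :
    ∑ m ∈ (Finset.range L).filter (fun m => Odd m), b m * w m ≤ 0.21105 := by
  classical
  set S := (Finset.range L).filter (fun m => Odd m) with hS
  have hsum : ∑ m ∈ S, b m ≤ 1.3 := by
    refine (sum_odd_le_D L S ?_).trans hD
    intro n hn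
    rw [hS, Finset.mem_filter, Finset.mem_range] at hn
    exact ⟨hn.2, hn.1⟩
  set A : Finset ℕ := {1, 5, 17} with hA
  have hAS : A ⊆ S := by
    intro m hm
    rw [hA] at hm
    simp only [Finset.mem_insert, Finset.mem_singleton] at hm
    rw [hS, Finset.mem_filter, Finset.mem_range]
    rcases hm with rfl | rfl | rfl
    · exact ⟨by omega, by decide⟩
    · exact ⟨by omega, by decide⟩
    · exact ⟨by omega, by decide⟩
  have hk2 : 0 ≤ x / (1 - x ^ 2) := by norm_num [x]
  have hk0 : 0 ≤ x / (1 - x) - x / (1 - x ^ 2) := by norm_num [x]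
  have hsplit : ∀ g : ℕ → ℝ, ∑ m ∈ S, g m = ∑ m ∈ S \ A, g m + (g 1 + g 5 + g 17) := by
    intro g
    rw [← Finset.sum_sdiff hAS]
    congr 1
    rw [hA]
    rw [Finset.sum_insert (by decide), Finset.sum_insert (by decide), Finset.sum_singleton]
    ring
  -- multiples of three
  have h3 : ∑ m ∈ S.filter (fun m => 3 ∣ m), b m ≤ b 3 * 1.3 := by
    have hinj : Set.InjOn (fun m => m / 3) (S.filter (fun m => 3 ∣ m) : Finset ℕ) := by
      intro u hu v hv huv
      rw [Finset.mem_coe, Finset.mem_filter] at hu hv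
      obtain ⟨k, hk⟩ := hu.2
      obtain ⟨l, hl⟩ := hv.2
      simp only at huv
      omega
    have h4 : ∑ m ∈ S.filter (fun m => 3 ∣ m), b m =
        ∑ m ∈ (S.filter (fun m => 3 ∣ m)).image (fun m => m / 3), b 3 * b m := by
      rw [Finset.sum_image hinj]
      apply Finset.sum_congr rfl
      intro m hm
      rw [Finset.mem_filter] at hm
      obtain ⟨k, hk⟩ := hm.2
      rw [hk, Nat.mul_div_cancel_left _ (by norm_num), map_mul]
    rw [h4, ← Finset.mul_sum]
    apply mul_le_mul_of_nonneg_left _ (b_nonneg 3)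
    refine (sum_odd_le_D L _ ?_).trans hD
    intro n hn
    rw [Finset.mem_image] at hn
    obtain ⟨m, hm, rfl⟩ := hn
    rw [Finset.mem_filter, hS, Finset.mem_filter, Finset.mem_range] at hm
    obtain ⟨⟨h1, h2⟩, k, hk⟩ := hm
    rw [hk, Nat.mul_div_cancel_left _ (by norm_num)]
    rw [hk, Nat.odd_mul] at h2
    exact ⟨h2.2, by omega⟩
  have hrest : ∑ m ∈ S \ A, b m * w m ≤
      x / (1 - x ^ 2) * (1.3 - 1 - b 5 - b 17) +
      (x / (1 - x) - x / (1 - x ^ 2)) * (b 3 * 1.3) := by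
    have h5 : ∀ m ∈ S \ A, b m * w m = x / (1 - x ^ 2) * b m +
        (x / (1 - x) - x / (1 - x ^ 2)) * (if 3 ∣ m then b m else 0) := by
      intro m hm
      rw [Finset.mem_sdiff, hA] at hm
      simp only [Finset.mem_insert, Finset.mem_singleton, not_or] at hm
      obtain ⟨_, h1, h5, h17⟩ := hm
      unfold w
      rw [if_neg h1, if_neg h5, if_neg h17]
      by_cases h : 3 ∣ m
      · rw [if_pos (Nat.dvd_iff_mod_eq_zero.mp h), if_pos h]; ring
      · rw [if_neg (fun h' => h (Nat.dvd_of_mod_eq_zero h')), if_neg h]; ring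
    rw [Finset.sum_congr rfl h5, Finset.sum_add_distrib, ← Finset.mul_sum, ← Finset.mul_sum]
    apply add_le_add
    · apply mul_le_mul_of_nonneg_left _ hk2
      have h6 := hsplit (fun m => b m)
      simp only [map_one] at h6
      linarith
    · apply mul_le_mul_of_nonneg_left _ hk0
      refine le_trans ?_ h3
      rw [← Finset.sum_filter]
      apply Finset.sum_le_sum_of_subset_of_nonneg
      · intro m hm
        rw [Finset.mem_filter, Finset.mem_sdiff] at hm
        rw [Finset.mem_filter]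
        exact ⟨hm.1.1, hm.2⟩
      · intro m _ _; exact b_nonneg m
  rw [hsplit]
  have hw1 : w 1 = x ^ 8 + x ^ 16 / (1 - x) := by unfold w; simp
  have hw5 : w 5 = x ^ 3 + x ^ 7 / (1 - x ^ 2) := by unfold w; simp
  have hw17 : w 17 = x ^ 3 + x ^ 9 / (1 - x ^ 2) := by unfold w; simp
  rw [hw1, hw5, hw17, map_one, one_mul]
  have := numeric
  linarith

lemma inv_le_exp {y : ℝ} (h0 : 0 ≤ y) (h1 : y ≤ 0.0075) :
    (1 - y)⁻¹ ≤ Real.exp (1.00756 * y) := by
  have hpos : 0 < 1 - y := by norm_num at h1; linarith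
  have h2 : (1 - y)⁻¹ = y / (1 - y) + 1 := by field_simp; ring
  rw [h2]
  refine le_trans (Real.add_one_le_exp _) ?_
  apply Real.exp_le_exp.mpr
  rw [div_le_iff₀ hpos]
  norm_num at h1 ⊢
  nlinarith

lemma exp_num : Real.exp 0.21265 ≤ 1.23697 := by
  refine (Real.exp_bound' (x := 0.21265) (by norm_num) (by norm_num) (n := 6)
    (by norm_num)).trans ?_
  norm_num [Finset.sum_range_succ, Nat.factorial]

/-- The key uniform bound. -/
lemma D_le (N : ℕ) : D N ≤ 1.3 := by
  induction N using Nat.strong_induction_on with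
  | _ N ih =>
    rcases Nat.lt_or_ge N 20 with hN | hN
    · have h1 := D_mono (show N ≤ 19 by omega)
      have h2 := D_19
      norm_num at h2 ⊢
      linarith
    · rw [D_split 19 N (by omega)]
      set R := N.primesBelow \ Nat.primesBelow 19 with hR
      have hmem : ∀ p ∈ R, p.Prime ∧ 19 ≤ p ∧ p < N := by
        intro p hp
        rw [hR, Finset.mem_sdiff, Nat.mem_primesBelow, Nat.mem_primesBelow] at hp
        obtain ⟨⟨h1, h2⟩, h3⟩ := hp
        refine ⟨h2, ?_, h1⟩
        by_contra h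
        exact h3 ⟨by omega, h2⟩
      have hcb : ∀ p ∈ R, c p = b p ∧ b p ≤ 0.0075 := by
        intro p hp
        obtain ⟨h1, h2, _⟩ := hmem p hp
        have hodd := h1.odd_of_ne_two (by omega)
        exact ⟨c_odd hodd, (b_odd_bound p hodd (by omega)).2.2 h1 h2⟩
      have h1 : ∏ p ∈ R, (1 - c p)⁻¹ ≤ Real.exp (∑ p ∈ R, 1.00756 * b p) := by
        rw [Real.exp_sum]
        apply Finset.prod_le_prod
        · intro p hp
          have := one_le_factor (hmem p hp).1
          linarith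
        · intro p hp
          rw [(hcb p hp).1]
          exact inv_le_exp (b_nonneg p) (hcb p hp).2
      have h2 : ∑ p ∈ R, 1.00756 * b p ≤ 0.21265 := by
        rw [← Finset.mul_sum]
        have h3 := sum_rest N (max 19 ((N + 1) / 2)) (by omega) R hmem
        have h4 := sum_weights (max 19 ((N + 1) / 2)) (le_max_left _ _)
          (ih _ (by omega))
        have h5 := h3.trans h4
        calc 1.00756 * ∑ p ∈ R, b p ≤ 1.00756 * 0.21105 :=
              mul_le_mul_of_nonneg_left h5 (by norm_num)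
          _ ≤ 0.21265 := by norm_num
      have h8 := D_19
      have h9 := D_pos 19
      calc (∏ p ∈ R, (1 - c p)⁻¹) * D 19
          ≤ Real.exp 0.21265 * D 19 := by
            apply mul_le_mul_of_nonneg_right _ h9.le
            exact h1.trans (Real.exp_le_exp.mpr h2)
        _ ≤ 1.23697 * 1.04952 := by
            apply mul_le_mul exp_num h8 h9.le (by norm_num)
        _ ≤ 1.3 := by norm_num

/-! ### Counting -/

lemma sum_b_le (N : ℕ) (s : Finset ℕ) (hs : ∀ n ∈ s, 0 < n ∧ n < N) : ∑ n ∈ s, b n ≤ 2.84 := by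
  classical
  refine (sum_le_prod b b_prime_lt_one b_nonneg N s hs).trans ?_
  have h1 : ∏ p ∈ N.primesBelow, (1 - b p)⁻¹ ≤
      ∏ p ∈ N.primesBelow, ((1 - c p)⁻¹ * (if p = 2 then (1 - x)⁻¹ else 1)) := by
    apply Finset.prod_le_prod
    · intro p hp
      have h1 := b_prime_lt_one (Nat.mem_primesBelow.mp hp).2
      rw [Real.norm_eq_abs, abs_of_nonneg (b_nonneg p)] at h1
      exact inv_nonneg.mpr (by linarith)
    · intro p hp
      by_cases h2 : p = 2
      · rw [if_pos h2, h2, b_two, c_two]; simp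
      · rw [if_neg h2, mul_one, c_odd ((Nat.mem_primesBelow.mp hp).2.odd_of_ne_two h2)]
  refine h1.trans ?_
  rw [Finset.prod_mul_distrib]
  have h2 : ∏ p ∈ N.primesBelow, (if p = 2 then (1 - x)⁻¹ else 1) ≤ (1 - x)⁻¹ := by
    rw [Finset.prod_ite_eq']
    split_ifs
    · exact le_refl _
    · norm_num [x]
  have h3 := D_le N
  have h4 := D_pos N
  calc (∏ p ∈ N.primesBelow, (1 - c p)⁻¹) * ∏ p ∈ N.primesBelow, (if p = 2 then (1 - x)⁻¹ else 1)
      ≤ 1.3 * (1 - x)⁻¹ := by
        apply mul_le_mul h3 h2 _ (by norm_num)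
        apply Finset.prod_nonneg
        intro p _
        split_ifs
        · norm_num [x]
        · norm_num
    _ ≤ 2.84 := by norm_num [x]

lemma log_lower : 9.78352 ≤ Real.log 17740 := by
  rw [Real.le_log_iff_exp_le (by norm_num)]
  have h1 : Real.exp 1 < 2.7182818286 := Real.exp_one_lt_d9
  have h2 : Real.exp 9.78352 * Real.exp 0.21648 = Real.exp 1 ^ 10 := by
    rw [← Real.exp_nat_mul, ← Real.exp_add]
    norm_num
  have h3 : (1.241697 : ℝ) ≤ Real.exp 0.21648 := by
    refine le_trans ?_ (Real.sum_le_exp_of_nonneg (x := 0.21648) (by norm_num) 6)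
    norm_num [Finset.sum_range_succ, Nat.factorial]
  have h4 : Real.exp 1 ^ 10 ≤ (2.7182818286 : ℝ) ^ 10 :=
    pow_le_pow_left₀ (Real.exp_pos _).le h1.le 10
  have h5 : (0 : ℝ) < Real.exp 9.78352 := Real.exp_pos _
  have h6 : Real.exp 9.78352 * 1.241697 ≤ Real.exp 9.78352 * Real.exp 0.21648 :=
    mul_le_mul_of_nonneg_left h3 h5.le
  rw [h2] at h6
  have h7 : (2.7182818286 : ℝ) ^ 10 ≤ 17740 * 1.241697 := by norm_num
  have h8 := h6.trans (h4.trans h7)
  exact le_of_mul_le_mul_right h8 (by norm_num)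

/-- If `F n + 1 ≥ 1.432 log n` then `1 ≤ 17740 * b n * n ^ 0.99`. -/
lemma one_le_b_mul (n : ℕ) (hn : 1 ≤ n) (h : 1.432 * Real.log n ≤ (F n : ℝ) + 1) :
    1 ≤ 17740 * b n * (n : ℝ) ^ (0.99 : ℝ) := by
  have hn0 : (0 : ℝ) < n := by exact_mod_cast hn
  have hlog : 0 ≤ Real.log n := Real.log_nonneg (by exact_mod_cast hn)
  have hb : 17740 * b n = Real.exp ((F n + 1) * Real.log 17740 - 15 * Real.log n) := by
    rw [b_apply, Real.exp_sub, mul_comm _ (Real.log 17740), Real.exp_mul,
      Real.exp_log (by norm_num), mul_comm (15 : ℝ), Real.exp_mul, Real.exp_log hn0,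
      Real.rpow_add (by norm_num)]
    norm_num
    ring
  rw [hb, Real.rpow_def_of_pos hn0, ← Real.exp_add]
  apply Real.one_le_exp
  have h1 := log_lower
  have h2 : (1.432 * Real.log n) * 9.78352 ≤ ((F n : ℝ) + 1) * Real.log 17740 := by
    apply mul_le_mul h h1 (by norm_num) (by positivity)
  nlinarith

/-- The number of iterations of the totient needed to reach `1`: the least `k ≥ 1` with
`φ_k(n) = 1`. -/
noncomputable def f (n : ℕ) : ℕ := sInf {k : ℕ | 1 ≤ k ∧ Nat.totient^[k] n = 1}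

/-- **Theorem.** For all but at most `51000 x^{0.99}` of the integers `n ≤ x` the stopping time
`f n` of the iterated totient is smaller than `1.432 log n`. -/
theorem result : ∀ N : ℕ,
    (((Finset.Icc 1 N).filter (fun n : ℕ => 1.432 * Real.log n ≤ (f n : ℝ))).card : ℝ) ≤
      51000 * (N : ℝ) ^ (0.99 : ℝ) := by
  intro N
  set S := (Finset.Icc 1 N).filter (fun n : ℕ => 1.432 * Real.log n ≤ (f n : ℝ)) with hS
  have h1 : ∀ n ∈ S, (1 : ℝ) ≤ b n * (17740 * (N : ℝ) ^ (0.99 : ℝ)) := by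
    intro n hn
    rw [hS, Finset.mem_filter, Finset.mem_Icc] at hn
    obtain ⟨⟨hn1, hnN⟩, hf⟩ := hn
    have h2 : 1.432 * Real.log n ≤ (F n : ℝ) + 1 := by
      have : (f n : ℝ) ≤ (F n : ℝ) + 1 := by exact_mod_cast stop_le n (by omega)
      linarith
    refine (one_le_b_mul n hn1 h2).trans ?_
    have h3 : (n : ℝ) ^ (0.99 : ℝ) ≤ (N : ℝ) ^ (0.99 : ℝ) :=
      Real.rpow_le_rpow (by positivity) (by exact_mod_cast hnN) (by norm_num)
    have h4 := b_nonneg n
    calc 17740 * b n * (n : ℝ) ^ (0.99 : ℝ) ≤ 17740 * b n * (N : ℝ) ^ (0.99 : ℝ) :=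
          mul_le_mul_of_nonneg_left h3 (by positivity)
      _ = b n * (17740 * (N : ℝ) ^ (0.99 : ℝ)) := by ring
  calc ((S.card : ℕ) : ℝ) = ∑ n ∈ S, (1 : ℝ) := by simp
    _ ≤ ∑ n ∈ S, b n * (17740 * (N : ℝ) ^ (0.99 : ℝ)) := Finset.sum_le_sum h1
    _ = (∑ n ∈ S, b n) * (17740 * (N : ℝ) ^ (0.99 : ℝ)) := by rw [Finset.sum_mul]
    _ ≤ 2.84 * (17740 * (N : ℝ) ^ (0.99 : ℝ)) := by
      apply mul_le_mul_of_nonneg_right _ (by positivity)
      apply sum_b_le (N + 1)
      intro n hn
      rw [hS, Finset.mem_filter, Finset.mem_Icc] at hn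
      omega
    _ ≤ 51000 * (N : ℝ) ^ (0.99 : ℝ) := by
      have : (0 : ℝ) ≤ (N : ℝ) ^ (0.99 : ℝ) := by positivity
      nlinarith

end Pool.Agent.Results.MP_628140_nt.UpperBound
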